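import Pool.Agent.Helper120_Alt.Prs6

set_option autoImplicit false

namespace Pool.Agent.Results.MP_11dbd9_lc.FiniteGroebner

open Pool.Agent.Helper120_Alt

/-- Alternative algebras with three generators and one relation, over any field with effective
arithmetic: if the unital associative algebra defined by the associative image of the relator is
a retract of (for instance, is isomorphic to) an algebra with finitely many generators and a
finite Groebner basis, then the alternative algebra has a decidable word problem. -/
theorem result (F : Type) [Field F] [Primcodable F]
    (hadd : Computable₂ fun a b : F => a + b) (hmul : Computable₂ fun a b : F => a * b)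
    (f : NA F (Fin 3)) (h : FinPrs (psi F (Fin 3) f)) :
    AltDecidable F (Fin 3) {f} :=
  altDecidable_of_finPrs hadd hmul h

end Pool.Agent.Results.MP_11dbd9_lc.FiniteGroebner
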