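import Pool.Agent.Helper120_Alt.Aut3

set_option autoImplicit false

namespace Pool.Agent.Results.MP_11dbd9_lc.StronglyFree

open Pool.Agent.Helper120_Alt

/-- Alternative algebras with three generators and one relation, over any field with effective
arithmetic: if the associative image of the relator is, up to a change of generators, a polynomial
in an element whose leading component for some positive weights of the letters is strongly free,
then the alternative algebra has a decidable word problem. -/
theorem result (F : Type) [Field F] [Primcodable F]
    (hadd : Computable₂ fun a b : F => a + b) (hmul : Computable₂ fun a b : F => a * b)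
    (f : NA F (Fin 3)) (θ θ' : AS F (Fin 3) →ₙₐ[F] AS F (Fin 3)) (hθ : ∀ x, θ' (θ x) = x)
    (v : AS F (Fin 3)) (hv : StrFree v) (c : ℕ → F) (r : ℕ)
    (hf : θ (psi F (Fin 3) f) = ∑ j ∈ Finset.range r, c j • pow1 v j) :
    AltDecidable F (Fin 3) {f} :=
  altDecidable_of_strFree hadd hmul f θ θ' hθ v hv c r hf

end Pool.Agent.Results.MP_11dbd9_lc.StronglyFree
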