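import Pool.Agent.Helper120_Alt.R4.Syz3

set_option autoImplicit false

namespace Pool.Agent.Results.MP_11dbd9_lc.SyzygyReduction

open Pool.Agent.Helper120_Alt

/-- Alternative algebras with three generators and one relation, over any field with effective
arithmetic: if the syzygies of the associative image of the relator are finitely generated modulo
the trivial ones, then a solution of the word problem of the associative algebra with this relator
yields one for the alternative algebra. -/
theorem result (F : Type) [Field F] [Primcodable F]
    (hadd : Computable₂ fun a b : F => a + b) (hmul : Computable₂ fun a b : F => a * b)
    (f : NA F (Fin 3)) (hs : FinSyz (psi F (Fin 3) f))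
    (ha : AssDecidable F (Fin 3) {psi F (Fin 3) f}) : AltDecidable F (Fin 3) {f} :=
  R4.main5 hadd hmul hs ha

end Pool.Agent.Results.MP_11dbd9_lc.SyzygyReduction
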