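import Pool.Agent.Helper120_Alt.Comp1

set_option autoImplicit false

namespace Pool.Agent.Results.MP_11dbd9_lc.TwoGenerators

open Pool.Agent.Helper120_Alt

/-- For every field, all alternative algebras with two generators and one defining relation have
decidable word problem if and only if all finitely generated associative algebras with one
defining relation have decidable word problem. -/
theorem result (F : Type) [Field F] [Primcodable F] :
    (∀ f : NA F (Fin 2), AltDecidable F (Fin 2) {f}) ↔
      (∀ (n : ℕ) (f : AS F (Fin n)), AssDecidable F (Fin n) {f}) :=
  ⟨fun h _ f => ass_of_alt f (h _), fun h f => alt_of_ass f (h 2 _)⟩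

end Pool.Agent.Results.MP_11dbd9_lc.TwoGenerators
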